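import Pool.Agent.Helper51.REC.Goals2

/-!
# Project REC, packet REC-G_ZET: the symbol of a root of unity
-/

set_option autoImplicit false

namespace Pool.Agent.Helper86.REC

open NumberField Module IsDedekindDomain Pool.Agent.Helper51.RP Pool.Agent.Helper42.PP
  Pool.Agent.Helper51.REC

section

variable {F : Type} [Field F] [NumberField F]

/-- The orders of the roots of unity in `F` are bounded. -/
theorem bounded_roots (p : ℕ) (hp : p.Prime) : ∃ k : ℕ, ∀ z : F, ¬ IsPrimitiveRoot z (p ^ (k + 1)) := by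
  refine ⟨NumberField.Units.torsionOrder F, fun z hz => ?_⟩
  have : NeZero (p ^ (NumberField.Units.torsionOrder F + 1)) := ⟨pow_ne_zero _ hp.ne_zero⟩
  have h1 := NumberField.Units.dvd_torsionOrder_of_isPrimitiveRoot hz
  have h2 := Nat.le_of_dvd (NumberField.Units.torsionOrder_pos F) h1
  have h3 : NumberField.Units.torsionOrder F + 1 < p ^ (NumberField.Units.torsionOrder F + 1) :=
    Nat.lt_pow_self hp.one_lt
  omega

theorem val_root {n : ℕ} (hn : n ≠ 0) {z : F} (hz : z ^ n = 1) (W : HeightOneSpectrum (𝓞 F)) :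
    W.valuation F z = 1 := by
  have h1 : (W.valuation F z) ^ n = 1 := by
    rw [← map_pow, hz, map_one]
  exact (pow_eq_one_iff.mp h1).resolve_right hn

theorem coprime_norm (p : ℕ) (hp : p.Prime) (W : HeightOneSpectrum (𝓞 F))
    (hW : W.valuation F (p : F) = 1) : (Ideal.absNorm W.asIdeal).Coprime p := by
  have : Fact p.Prime := ⟨hp⟩
  rw [Nat.coprime_comm, Nat.Prime.coprime_iff_not_dvd hp]
  intro hdvd
  let _ : Field (𝓞 F ⧸ W.asIdeal) := Ideal.Quotient.field W.asIdeal
  have hfin : Finite (𝓞 F ⧸ W.asIdeal) := inferInstance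
  rw [Ideal.absNorm_apply, Submodule.cardQuot_apply] at hdvd
  obtain ⟨x, hx⟩ := exists_prime_addOrderOf_dvd_card' (G := 𝓞 F ⧸ W.asIdeal) p hdvd
  have h1 : p • x = 0 := by
    rw [← hx]
    exact addOrderOf_nsmul_eq_zero x
  rw [nsmul_eq_mul] at h1
  rcases mul_eq_zero.mp h1 with h2 | h2
  · have h3 : (Ideal.Quotient.mk W.asIdeal) (p : 𝓞 F) = 0 := by
      rw [map_natCast]
      exact h2
    rw [Ideal.Quotient.eq_zero_iff_mem] at h3
    have h4 := (W.valuation_lt_one_iff_mem (K := F) (p : 𝓞 F)).2 h3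
    have h5 : W.valuation F (p : F) < 1 := by
      simpa using h4
    exact absurd hW h5.ne
  · rw [h2, addOrderOf_zero] at hx
    exact hp.one_lt.ne hx

theorem dvd_norm {n : ℕ} (hn : n ≠ 0) (W : HeightOneSpectrum (𝓞 F)) {z : F}
    (hz : IsPrimitiveRoot z n) (hc : (Ideal.absNorm W.asIdeal).Coprime n) :
    n ∣ Ideal.absNorm W.asIdeal - 1 := by
  have : NeZero n := ⟨hn⟩
  let _ : Field (𝓞 F ⧸ W.asIdeal) := Ideal.Quotient.field W.asIdeal
  have h1 : Ideal.absNorm W.asIdeal ≠ 1 :=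
    Ideal.absNorm_eq_one_iff.not.mpr W.isPrime.ne_top
  have h2 := (hz.toInteger_isPrimitiveRoot).idealQuotient_mk h1 hc
  have h3 := h2.isUnit hn
  obtain ⟨u, hu⟩ := h3
  rw [← hu] at h2
  have h4 : IsPrimitiveRoot u n := IsPrimitiveRoot.coe_units_iff.mp h2
  have h5 : Nat.card (𝓞 F ⧸ W.asIdeal)ˣ = Ideal.absNorm W.asIdeal - 1 := by
    rw [Nat.card_units, Ideal.absNorm_apply, Submodule.cardQuot_apply]
  rw [← h5, h4.eq_orderOf]
  exact orderOf_dvd_natCard u

end

theorem g_zet (h1 : K_BAS) : Pool.Agent.Helper51.REC.G_ZET := by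
  classical
  intro p hpF F _ _ ε hε
  have hp : p.Prime := hpF.out
  have hB := bounded_roots (F := F) p hp
  obtain ⟨k, hk, hk1, ⟨z, hz⟩⟩ : ∃ k : ℕ, (∀ z : F, ¬ IsPrimitiveRoot z (p ^ (k + 1))) ∧ 1 ≤ k ∧
      ∃ z : F, IsPrimitiveRoot z (p ^ k) := by
    refine ⟨Nat.find hB, Nat.find_spec hB, ?_, ?_⟩
    · by_contra h
      have h0 : Nat.find hB = 0 := by omega
      have h2 := Nat.find_spec hB ε
      rw [h0, zero_add, pow_one] at h2
      exact h2 hε
    · by_cases h0 : Nat.find hB = 0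
      · rw [h0, pow_zero]
        exact ⟨1, IsPrimitiveRoot.one⟩
      · have h2 := Nat.find_min hB (m := Nat.find hB - 1) (by omega)
        push Not at h2
        have h3 : Nat.find hB - 1 + 1 = Nat.find hB := by omega
        rw [h3] at h2
        exact h2
  have hpk : p ^ k ≠ 0 := pow_ne_zero _ hp.ne_zero
  have hz0 : z ≠ 0 := hz.ne_zero hpk
  have hpk1 : p ^ k = p ^ (k - 1) * p := by
    rw [← pow_succ]
    congr 1
    omega
  have hzp : IsPrimitiveRoot (z ^ p ^ (k - 1)) p := hz.pow (Nat.pos_of_ne_zero hpk) hpk1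
  obtain ⟨i, hi, hεi⟩ := hε.eq_pow_of_pow_eq_one hzp.pow_eq_one
  have hi0 : i ≠ 0 := by
    rintro rfl
    rw [pow_zero] at hεi
    rw [← hεi] at hzp
    exact hp.one_lt.ne' (hzp.unique IsPrimitiveRoot.one)
  refine ⟨k, Units.mk0 z hz0, (i : ZMod p), hk1, hz, hk, ?_, ?_⟩
  · rw [Ne, ZMod.natCast_eq_zero_iff]
    intro h
    exact absurd (Nat.le_of_dvd (Nat.pos_of_ne_zero hi0) h) (by omega)
  · intro W hW
    have hcop : (Ideal.absNorm W.asIdeal).Coprime (p ^ k) :=
      Nat.Coprime.pow_right _ (coprime_norm p hp W hW)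
    have hd := dvd_norm hpk W hz hcop
    refine ⟨hd, ?_⟩
    obtain ⟨-, -, h3, -⟩ := h1 p F ε hε W hW
    have hv : W.valuation F z = 1 := val_root hpk hz.pow_eq_one W
    have hord : (p : ℤ) ∣ ordv W ((Units.mk0 z hz0 : Fˣ) : F) := by
      have h4 : ordv W z = 0 := by
        unfold ordv
        rw [hv, WithZero.log_one, neg_zero]
      rw [Units.val_mk0, h4]
      exact dvd_zero _
    symm
    apply (h3 (Units.mk0 z hz0) hord _).mp
    refine ⟨1, ?_, ?_⟩
    · rw [Units.val_mk0, Units.val_one, one_pow, mul_one]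
      exact hv
    · obtain ⟨m, hm⟩ := hd
      have hm1 : (Ideal.absNorm W.asIdeal - 1) / p ^ k = m := by
        rw [hm, Nat.mul_div_cancel_left _ (Nat.pos_of_ne_zero hpk)]
      have hm2 : (Ideal.absNorm W.asIdeal - 1) / p = p ^ (k - 1) * m := by
        rw [hm, hpk1, mul_assoc, mul_left_comm, Nat.mul_div_cancel_left _ hp.pos]
      rw [Units.val_mk0, Units.val_one, one_pow, mul_one, hm1, hm2, pow_mul, ← hεi, ← pow_mul]
      have h5 : ε ^ (i * m) = ε ^ (((i : ZMod p) * ((m : ℕ) : ZMod p)).val) := by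
        rw [← Nat.cast_mul, ZMod.val_natCast]
        have h6 : ε ^ (i * m) = ε ^ (i * m % p + p * (i * m / p)) := by
          rw [Nat.mod_add_div]
        rw [h6, pow_add, pow_mul, hε.pow_eq_one, one_pow, mul_one]
      rw [h5, sub_self, map_zero]
      exact zero_lt_one

end Pool.Agent.Helper86.REC
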