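import Pool.Agent.Helper51.REC.Goals1

/-!
# Project REC, packet REC-H_IDX: indices of images
-/

namespace Pool.Agent.Helper86.REC

theorem h_idx : Pool.Agent.Helper51.REC.H_IDX := by
  intro A _ φ ψ hφ hψ hkφ hkψ
  have hr : (φ.comp ψ).range = ψ.range.map φ := MonoidHom.range_comp φ ψ
  have h1 : (φ.comp ψ).range.index = (ψ.range ⊔ φ.ker).index * φ.range.index := by
    rw [hr, Subgroup.index_map]
  have h2 : ψ.range.relIndex (ψ.range ⊔ φ.ker) * (ψ.range ⊔ φ.ker).index = ψ.range.index :=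
    Subgroup.relIndex_mul_index le_sup_left
  have h3 : ψ.range.relIndex (ψ.range ⊔ φ.ker) = ψ.range.relIndex φ.ker := by
    rw [sup_comm, Subgroup.relIndex_sup_right]
  have h4 : Nat.card (ψ.range.subgroupOf φ.ker) * ψ.range.relIndex φ.ker = Nat.card φ.ker :=
    Subgroup.card_mul_index _
  -- the restriction of `ψ` to the kernel of the composition
  set f : (φ.comp ψ).ker →* A := ψ.comp (φ.comp ψ).ker.subtype with hf
  have h5 : Nat.card f.ker = Nat.card ψ.ker := by
    refine Nat.card_congr ⟨fun z => ⟨z.1.1, ?_⟩, fun z => ⟨⟨z.1, ?_⟩, ?_⟩, ?_, ?_⟩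
    · have := z.2
      rw [MonoidHom.mem_ker] at this ⊢
      exact this
    · have := z.2
      rw [MonoidHom.mem_ker] at this ⊢
      rw [MonoidHom.comp_apply, this, map_one]
    · have := z.2
      rw [MonoidHom.mem_ker] at this ⊢
      exact this
    · intro z
      rfl
    · intro z
      rfl
  have h6 : Nat.card f.range = Nat.card (ψ.range.subgroupOf φ.ker) := by
    refine Nat.card_congr ⟨fun z => ⟨⟨z.1, ?_⟩, ?_⟩, fun z => ⟨z.1.1, ?_⟩, ?_, ?_⟩
    · obtain ⟨w, hw⟩ := z.2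
      rw [← hw, MonoidHom.mem_ker]
      exact w.2
    · rw [Subgroup.mem_subgroupOf]
      obtain ⟨w, hw⟩ := z.2
      exact ⟨w.1, hw⟩
    · have h7 := z.2
      rw [Subgroup.mem_subgroupOf] at h7
      obtain ⟨w, hw⟩ := h7
      refine ⟨⟨w, ?_⟩, hw⟩
      rw [MonoidHom.mem_ker, MonoidHom.comp_apply, hw]
      exact z.1.2
    · intro z
      rfl
    · intro z
      rfl
  have h8 : Nat.card f.ker * Nat.card f.range = Nat.card (φ.comp ψ).ker := by
    rw [← Subgroup.index_ker]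
    exact Subgroup.card_mul_index _
  rw [h5, h6] at h8
  have hc1 : Nat.card φ.ker ≠ 0 := Nat.card_pos.ne'
  have hc2 : Nat.card ψ.ker ≠ 0 := Nat.card_pos.ne'
  have hc3 : Nat.card (ψ.range.subgroupOf φ.ker) ≠ 0 := Nat.card_pos.ne'
  have hc4 : Nat.card (φ.comp ψ).ker ≠ 0 := by
    rw [← h8]
    exact mul_ne_zero hc2 hc3
  have hi : (ψ.range ⊔ φ.ker).index ≠ 0 := by
    intro h
    rw [h, mul_zero] at h2
    exact hψ h2.symm
  refine ⟨?_, Nat.finite_of_card_ne_zero hc4, ?_⟩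
  · rw [h1]
    exact mul_ne_zero hi hφ
  · rw [h1, ← h8, ← h4, ← h2, h3]
    ring

end Pool.Agent.Helper86.REC
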